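import Pool.Agent.K7.H39.IQ.Stm

/-!
# Project IQ, job SHK: the areas of the projections of the truncated tetrahedron, from those of the
tetrahedron
-/

set_option autoImplicit false

namespace Pool.Agent.K7.H39.IQ

open Metric Set MeasureTheory Filter Topology Pool.Agent.K7.H39.Cube
open scoped Pointwise

theorem vol_neg (X : Set E3) : vol (-X) = vol X := by
  have h := vol_image (LinearIsometryEquiv.neg ℝ : E3 ≃ₗᵢ[ℝ] E3) X
  rw [← h]
  congr 1
  ext x
  constructor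
  · intro hx
    exact ⟨-x, hx, by simp⟩
  · rintro ⟨z, hz, rfl⟩
    simpa using hz

/-- triangles with a vertex at the origin -/
def Tri (a b : E3) : Set E3 := {x | ∃ s t : ℝ, 0 ≤ s ∧ 0 ≤ t ∧ s + t ≤ 1 ∧ x = s • a + t • b}

theorem Tri_compact (a b : E3) : IsCompact (Tri a b) := by
  have h : Tri a b = (fun p : ℝ × ℝ => p.1 • a + p.2 • b) ''
      {p : ℝ × ℝ | 0 ≤ p.1 ∧ 0 ≤ p.2 ∧ p.1 + p.2 ≤ 1} := by
    ext x
    constructor
    · rintro ⟨s, t, hs, ht, hst, rfl⟩
      exact ⟨(s, t), ⟨hs, ht, hst⟩, rfl⟩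
    · rintro ⟨⟨s, t⟩, ⟨hs, ht, hst⟩, rfl⟩
      exact ⟨s, t, hs, ht, hst, rfl⟩
  rw [h]
  refine IsCompact.image ?_ (by fun_prop)
  refine IsCompact.of_isClosed_subset (isCompact_Icc (a := ((0 : ℝ), (0 : ℝ))) (b := (1, 1))) ?_ ?_
  · have e1 : IsClosed {p : ℝ × ℝ | 0 ≤ p.1} := isClosed_le continuous_const continuous_fst
    have e2 : IsClosed {p : ℝ × ℝ | 0 ≤ p.2} := isClosed_le continuous_const continuous_snd
    have e3 : IsClosed {p : ℝ × ℝ | p.1 + p.2 ≤ 1} :=
      isClosed_le (continuous_fst.add continuous_snd) continuous_const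
    exact e1.inter (e2.inter e3)
  · rintro ⟨s, t⟩ ⟨hs, ht, hst⟩
    simp only at hs ht hst
    exact ⟨⟨hs, ht⟩, ⟨by simp only; linarith, by simp only; linarith⟩⟩

/-- A prism over a triangle has half the volume of the box. -/
theorem tri_prism (a b u : E3) : 1 / 2 * |det3 a b u| ≤ vol (Tri a b + Sg u 0 1) := by
  set X := Tri a b + Sg u 0 1 with hX
  have hXc : IsCompact X := (Tri_compact a b).add (Sg_compact u 0 1)
  have h1 : fbox a b u ⊆ X ∪ (-X + {a + b + u}) := by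
    rintro x ⟨z, ⟨z1, ⟨s, ⟨hs0, hs1⟩, rfl⟩, z2, ⟨t, ⟨ht0, ht1⟩, rfl⟩, rfl⟩, z3, ⟨r, ⟨hr0, hr1⟩, rfl⟩, rfl⟩
    rcases le_total (s + t) 1 with h | h
    · left
      exact ⟨s • a + t • b, ⟨s, t, hs0, ht0, h, rfl⟩, r • u, ⟨r, ⟨hr0, hr1⟩, rfl⟩, rfl⟩
    · right
      refine ⟨-((1 - s) • a + (1 - t) • b + (1 - r) • u), ?_, a + b + u, rfl, ?_⟩
      · rw [Set.mem_neg, neg_neg]
        exact ⟨(1 - s) • a + (1 - t) • b, ⟨1 - s, 1 - t, by linarith, by linarith, by linarith, rfl⟩,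
          (1 - r) • u, ⟨1 - r, ⟨by linarith, by linarith⟩, rfl⟩, rfl⟩
      · simp only
        module
  have h2 : vol (fbox a b u) ≤ vol X + vol (-X + {a + b + u}) := by
    have hc2 : IsCompact (-X + {a + b + u}) := hXc.neg.add isCompact_singleton
    unfold vol
    rw [← ENNReal.toReal_add hXc.measure_ne_top hc2.measure_ne_top]
    refine ENNReal.toReal_mono (ENNReal.add_ne_top.2 ⟨hXc.measure_ne_top, hc2.measure_ne_top⟩) ?_
    exact (measure_mono h1).trans (measure_union_le _ _)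
  rw [vol_translate, vol_neg, vol_fbox] at h2
  linarith

/-- scaling by two -/
theorem vol_two (X : Set E3) : vol ((2 : ℝ) • X) = 8 * vol X := by
  unfold vol
  rw [Measure.addHaar_smul, ENNReal.toReal_mul, ENNReal.toReal_ofReal (abs_nonneg _)]
  simp
  norm_num

theorem G_two {X : Set E3} (hX : IsCompact X) (hc : Convex ℝ X) (u : E3) :
    G ((2 : ℝ) • X) u = 4 * G X u := by
  set p : E3 := (1 / 2 : ℝ) • u with hp
  have h1 : (2 : ℝ) • X + Sg u 0 1 = (2 : ℝ) • (X + Sg p 0 1) := by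
    rw [smul_add]
    congr 1
    ext x
    constructor
    · rintro ⟨s, hs, rfl⟩
      refine ⟨s • p, ⟨s, hs, rfl⟩, ?_⟩
      simp only [hp]
      module
    · rintro ⟨z, ⟨s, hs, rfl⟩, rfl⟩
      refine ⟨s, hs, ?_⟩
      simp only [hp]
      module
  have h2 : G ((2 : ℝ) • X) u = 8 * G X p := by
    unfold G
    rw [h1, vol_two, vol_two]
    ring
  have h3 : G X u = 2 * G X p := by
    have h4 := vol_add_Sg hX hc p 2
    have h5 : Sg u 0 1 = Sg p 0 ((2 : ℕ) : ℝ) := by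
      have : u = (2 : ℝ) • p := by simp only [hp]; module
      rw [this, Sg_smul p (by norm_num)]
      norm_num
    have h6 : G X u = vol (X + Sg u 0 1) - vol X := rfl
    rw [h6, h5, h4]
    push_cast
    ring
  rw [h2, h3]
  ring

theorem y_smul (i : Fin 4) (c : ℝ) (x : E3) : y i (c • x) = c * y i x := by
  fin_cases i <;> simp [y] <;> ring

theorem y_add (i : Fin 4) (x z : E3) : y i (x + z) = y i x + y i z := by
  fin_cases i <;> simp [y] <;> ring

theorem y_sum (x : E3) : ∑ i : Fin 4, y i x = 0 := by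
  simp [y, Fin.sum_univ_four]
  ring

theorem B_two (α β : ℝ) : B (2 * α) (2 * β) = (2 : ℝ) • B α β := by
  ext x
  rw [mem_smul_set_iff_inv_smul_mem₀ (by norm_num)]
  simp only [B, mem_ofPred_eq, y_smul]
  refine forall_congr' fun i => ?_
  constructor
  · rintro ⟨h1, h2⟩
    constructor <;> linarith
  · rintro ⟨h1, h2⟩
    constructor <;> linarith

/-- `3/2 t_i` -/
noncomputable def fT (i : Fin 4) : E3 :=
  ![!₂[3/2, 3/2, 3/2], !₂[3/2, -3/2, -3/2], !₂[-3/2, 3/2, -3/2], !₂[-3/2, -3/2, 3/2]] i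

/-- a vertex of the facet `y_i = 4` -/
noncomputable def fP (i : Fin 4) : E3 :=
  ![!₂[2, 1, 1], !₂[2, -1, -1], !₂[-2, 1, -1], !₂[-2, -1, 1]] i

/-- the edges of the facet -/
noncomputable def fA (i : Fin 4) : E3 :=
  ![!₂[-1, 1, 0], !₂[-1, -1, 0], !₂[1, 1, 0], !₂[1, -1, 0]] i

/-- the edges of the facet -/
noncomputable def fB (i : Fin 4) : E3 :=
  ![!₂[-1, 0, 1], !₂[-1, 0, -1], !₂[1, 0, -1], !₂[1, 0, 1]] i

theorem det_facet (i : Fin 4) (u : E3) : det3 (fA i) (fB i) u = y i u := by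
  fin_cases i <;> simp [det3, fA, fB, y] <;> ring

theorem facet_K (i : Fin 4) : {fP i} + Tri (fA i) (fB i) ⊆ B 2 4 := by
  rintro x ⟨p, rfl, z, ⟨s, t, hs, ht, hst, rfl⟩, rfl⟩ j
  fin_cases i <;> fin_cases j <;> simp [fP, fA, fB, y] <;> constructor <;> linarith

theorem facet_C (i : Fin 4) : {fP i} + Tri (fA i) (fB i) ⊆ B (1 / 2) (3 / 2) + {fT i} := by
  rintro x ⟨p, rfl, z, ⟨s, t, hs, ht, hst, rfl⟩, rfl⟩
  refine ⟨fP i + (s • fA i + t • fB i) - fT i, ?_, fT i, rfl, by simp⟩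
  intro j
  fin_cases i <;> fin_cases j <;> simp [fP, fA, fB, fT, y] <;> constructor <;> linarith

theorem cover : B 2 6 ⊆ B 2 4 ∪ ⋃ i, (B (1 / 2) (3 / 2) + {fT i}) := by
  intro x hx
  by_cases h : x ∈ B 2 4
  · exact Or.inl h
  right
  have h1 : ∃ i, 4 < y i x := by
    by_contra hcon
    push Not at hcon
    exact h fun i => ⟨(hx i).1, hcon i⟩
  obtain ⟨i, hi⟩ := h1
  refine mem_iUnion.2 ⟨i, x - fT i, ?_, fT i, rfl, by simp⟩
  have h0 := (hx 0)
  have h1 := (hx 1)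
  have h2 := (hx 2)
  have h3 := (hx 3)
  simp only [y, Matrix.cons_val_zero, Matrix.cons_val_one, Matrix.cons_val] at h0 h1 h2 h3
  intro j
  fin_cases i <;> simp [y] at hi <;> fin_cases j <;> simp [fT, y] <;> constructor <;> linarith

/-- the part of a corner prism outside the prism over `K` -/
theorem corner (hK : IsCompact (B 2 4)) (hW : IsCompact (B (1 / 2) (3 / 2))) (u : E3) (i : Fin 4) :
    vol ((B (1 / 2) (3 / 2) + {fT i} + Sg u 0 1) \ (B 2 4 + Sg u 0 1)) ≤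
      vol (B (1 / 2) (3 / 2) + Sg u 0 1) - 1 / 2 * |y i u| := by
  set D := B (1 / 2) (3 / 2) + {fT i} + Sg u 0 1 with hD
  set A := B 2 4 + Sg u 0 1 with hA
  have hDc : IsCompact D := (hW.add isCompact_singleton).add (Sg_compact u 0 1)
  have hAc : IsCompact A := hK.add (Sg_compact u 0 1)
  have h1 := measureReal_inter_add_sdiff (μ := (volume : Measure E3)) (s := D) hAc.measurableSet
    (h := hDc.measure_ne_top)
  have h2 : vol D = vol (B (1 / 2) (3 / 2) + Sg u 0 1) := by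
    rw [hD, add_assoc, add_comm {fT i}, ← add_assoc, vol_translate]
  have h3 : {fP i} + Tri (fA i) (fB i) + Sg u 0 1 ⊆ D ∩ A :=
    subset_inter (add_subset_add_right (facet_C i)) (add_subset_add_right (facet_K i))
  have h4 : 1 / 2 * |y i u| ≤ vol (D ∩ A) := by
    have h5 := tri_prism (fA i) (fB i) u
    rw [det_facet] at h5
    have h6 : vol ({fP i} + Tri (fA i) (fB i) + Sg u 0 1) = vol (Tri (fA i) (fB i) + Sg u 0 1) := by
      rw [add_assoc, add_comm {fP i}, vol_translate]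
    rw [← h6] at h5
    exact h5.trans (vol_mono h3 (hDc.inter hAc))
  change vol (D ∩ A) + vol (D \ A) = vol D at h1
  rw [h2] at h1
  linarith

theorem t_shk (hV : S_VOL) (hC : S_CPT) (hT : S_SHT) : S_SHK := by
  intro u
  obtain ⟨hK, hKc, -⟩ := hC 2 4 (by norm_num) (by norm_num)
  obtain ⟨hW, hWc, -⟩ := hC (1 / 2) (3 / 2) (by norm_num) (by norm_num)
  obtain ⟨h1c, h1v, -⟩ := hC 1 3 (by norm_num) (by norm_num)
  obtain ⟨hX, hXc, -⟩ := hC 2 6 (by norm_num) (by norm_num)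
  have e1 : B 1 3 = (2 : ℝ) • B (1 / 2) (3 / 2) := by
    rw [← B_two]; norm_num
  have e2 : B 2 6 = (2 : ℝ) • B 1 3 := by
    rw [← B_two]; norm_num
  have g1 : G (B 1 3) u = 4 * G (B (1 / 2) (3 / 2)) u := by rw [e1, G_two hW hWc]
  have g2 : G (B 2 6) u = 4 * G (B 1 3) u := by rw [e2, G_two h1c h1v]
  have v1 := hV (1 / 2) (3 / 2) (by norm_num) (by norm_num) (by norm_num)
  have v2 := hV 2 4 (by norm_num) (by norm_num) (by norm_num)
  have v3 := hV 2 6 (by norm_num) (by norm_num) (by norm_num)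
  norm_num at v1 v2 v3
  set A := B 2 4 + Sg u 0 1 with hA
  set D : Fin 4 → Set E3 := fun i => B (1 / 2) (3 / 2) + {fT i} + Sg u 0 1 with hD
  have hAc : IsCompact A := hK.add (Sg_compact u 0 1)
  have hDc : ∀ i, IsCompact (D i) := fun i => (hW.add isCompact_singleton).add (Sg_compact u 0 1)
  have hsub : B 2 6 + Sg u 0 1 ⊆ A ∪ ⋃ i, (D i \ A) := by
    have h1 : B 2 6 + Sg u 0 1 ⊆ A ∪ ⋃ i, D i := by
      refine (add_subset_add_right cover).trans ?_
      rw [union_add, iUnion_add]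
    intro x hx
    rcases h1 hx with h | h
    · exact Or.inl h
    · by_cases hxA : x ∈ A
      · exact Or.inl hxA
      · obtain ⟨i, hi⟩ := mem_iUnion.1 h
        exact Or.inr (mem_iUnion.2 ⟨i, hi, hxA⟩)
  have hfin : ∀ i, volume (D i \ A) ≠ ⊤ := fun i =>
    ne_top_of_le_ne_top (hDc i).measure_ne_top (measure_mono sdiff_subset)
  have h2 : vol (B 2 6 + Sg u 0 1) ≤ vol A + ∑ i, vol (D i \ A) := by
    unfold vol
    rw [← ENNReal.toReal_sum (fun i _ => hfin i), ← ENNReal.toReal_add hAc.measure_ne_top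
      (ENNReal.sum_ne_top.2 fun i _ => hfin i)]
    refine ENNReal.toReal_mono (ENNReal.add_ne_top.2 ⟨hAc.measure_ne_top,
      ENNReal.sum_ne_top.2 fun i _ => hfin i⟩) ?_
    refine (measure_mono hsub).trans ((measure_union_le _ _).trans (add_le_add_right ?_ _))
    exact measure_iUnion_fintype_le _ _
  have h3 : ∑ i, vol (D i \ A) ≤
      ∑ i : Fin 4, (vol (B (1 / 2) (3 / 2) + Sg u 0 1) - 1 / 2 * |y i u|) :=
    Finset.sum_le_sum fun i _ => corner hK hW u i
  rw [Finset.sum_sub_distrib, ← Finset.mul_sum] at h3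
  simp only [Finset.sum_const, Finset.card_univ, Fintype.card_fin, nsmul_eq_mul] at h3
  have h4 := hT u
  have a1 : vol (B 2 6 + Sg u 0 1) = vol (B 2 6) + G (B 2 6) u := by unfold G; ring
  have a2 : vol A = vol (B 2 4) + G (B 2 4) u := by unfold G; ring
  have a3 : vol (B (1 / 2) (3 / 2) + Sg u 0 1) = vol (B (1 / 2) (3 / 2)) + G (B (1 / 2) (3 / 2)) u := by
    unfold G; ring
  rw [a1, a2] at h2
  rw [a3] at h3
  push_cast at h3
  norm_num at h3
  linarith

end Pool.Agent.K7.H39.IQ
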