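import Pool.Agent.K7.H39.Cube.Lower

/-!
# Project IQ: the truncated tetrahedron and the isoperimetric ratios of its projections

`K = B 2 4` is the truncated tetrahedron with vertices the permutations of `(±2, ±1, ±1)` with an even
number of minus signs (`= T + octahedron`, `T = B 1 3` the regular tetrahedron with the vertices
`(1,1,1), (1,-1,-1), (-1,1,-1), (-1,-1,1)`). Library: `E3, Sg, vol, G, G_mono, vol_add_Sg, vol_translate,
det3, fbox, vol_fbox` in `Pool/Agent/K7/H39/Cube/{Add,Box,Flat,Shadow,Lower}.lean`.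
-/

set_option autoImplicit false

namespace Pool.Agent.K7.H39.IQ

open Metric Set MeasureTheory Filter Topology Pool.Agent.K7.H39.Cube
open scoped Pointwise

/-- the four linear forms `⟨(1,1,1), x⟩, ⟨(1,-1,-1), x⟩, ⟨(-1,1,-1), x⟩, ⟨(-1,-1,1), x⟩` (sum zero) -/
def y (i : Fin 4) (x : E3) : ℝ :=
  ![x 0 + x 1 + x 2, x 0 - x 1 - x 2, -x 0 + x 1 - x 2, -x 0 - x 1 + x 2] i

/-- truncated tetrahedra -/
def B (α β : ℝ) : Set E3 := {x | ∀ i : Fin 4, -α ≤ y i x ∧ y i x ≤ β}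

/-- VOL. `B α β` is the tetrahedron `{-α ≤ y_i}` (volume `8 α³ / 3`) without the four disjoint corners
`{β < y_i}`, which are copies of it scaled by `(3 α - β) / (4 α)`. -/
def S_VOL : Prop := ∀ α β : ℝ, 0 < α → α ≤ β → β ≤ 3 * α →
  vol (B α β) = 8 / 3 * α ^ 3 - 1 / 6 * (3 * α - β) ^ 3

/-- CPT -/
def S_CPT : Prop := ∀ α β : ℝ, 0 < α → α ≤ β →
  IsCompact (B α β) ∧ Convex ℝ (B α β) ∧ (interior (B α β)).Nonempty

/-- SHT. The increment `G T u` (area of the projection along `u`, times `‖u‖`) is at least the sum of the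
volumes of the prisms `F_i + (0,1] u` over the facets `F_i = T ∩ {y_i = -1}` with `y_i u < 0` (volume
`2 |y_i u|`); they are disjoint from `T` and from each other up to null sets. -/
def S_SHT : Prop := ∀ u : E3, ∑ i : Fin 4, |y i u| ≤ G (B 1 3) u

/-- SHK. From SHT (helper39). -/
def S_SHK : Prop := ∀ u : E3, 7 / 2 * ∑ i : Fin 4, |y i u| ≤ G (B 2 4) u

/-- the sum of the lengths of the six vectors `e_i ± e_j`, for a seminorm `f` of the coordinates -/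
def six (f : ℝ → ℝ → ℝ → ℝ) : ℝ :=
  f 1 1 0 + f 1 (-1) 0 + f 1 0 1 + f 1 0 (-1) + f 0 1 1 + f 0 1 (-1)

/-- WID. The width of `K` is that of the permutohedron. (With `w_i = y_i v`, `⟨v, x⟩ = ∑ w_i y_i(x) / 4`
and `six |⟨r, v⟩| = ½ ∑_{i<j} |w_i - w_j|`; for `w_a ≥ w_b ≥ w_c ≥ w_d` and `z = y(x) - y(x')` one has
`z_a ≤ 6`, `z_a + z_b ≤ 8`, `z_a + z_b + z_c = -z_d ≤ 6`; Abel summation.) -/
def S_WID : Prop := ∀ v : E3, ∀ x ∈ B 2 4, ∀ x' ∈ B 2 4,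
  inner ℝ v x - inner ℝ v x' ≤ six (fun p q r => |p * v 0 + q * v 1 + r * v 2|)

/-- the support function -/
noncomputable def h (K : Set E3) (v : E3) : ℝ := sSup ((fun x => inner ℝ v x) '' K)

/-- half the perimeter of the projection of `K` to the plane of the orthonormal vectors `a`, `b`
(Cauchy's formula) -/
noncomputable def V1 (K : Set E3) (a b : E3) : ℝ :=
  (1 / 2) * ∫ θ in (0 : ℝ)..(2 * Real.pi), h K (Real.cos θ • a + Real.sin θ • b)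

/-- PER (assume WID, CPT): `∫ h = ½ ∫ (h(e(θ)) + h(-e(θ))) ≤ ½ ∑_r ∫ |⟨r, e(θ)⟩| = ½ ∑_r 4 √(⟨r,a⟩² + ⟨r,b⟩²)`. -/
def S_PER : Prop := ∀ a b : E3,
  0 ≤ V1 (B 2 4) a b ∧ V1 (B 2 4) a b ≤ six (fun p q r =>
    Real.sqrt ((p * a 0 + q * a 1 + r * a 2) ^ 2 + (p * b 0 + q * b 1 + r * b 2) ^ 2))

/-- POS: `V1 > 0` for orthonormal `a`, `b` (`h ≥ 1` on unit vectors, since `K` contains the unit ball). -/
def S_POS : Prop := ∀ a b : E3, ‖a‖ = 1 → ‖b‖ = 1 → inner ℝ a b = 0 → 0 < V1 (B 2 4) a b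

/-- INQ. Let `a ≥ b ≥ c ≥ 0` be the sorted absolute values. The pair for `(x, y)` (third coordinate `z`):
`(√(2-(x+y)²) + √(2-(x-y)²))² = 2 + 2z² + 2 √(4z² + (x²-y²)²)`, Cauchy-Schwarz for the three pairs, then
`√(4z² + (x²-y²)²) ≤ 1 + z²`, and `≤ 2c + a² - b²` for the pair `(a, b)`: so
`(sum)² ≤ min 48 (36 + 12 a² + 12 c)`, and the right hand side is `14.95 max (4a) (2(a+b+c))`.
(Margins: 0.3 at `(1/√2, 1/√2, 0)`, 0.8 at `(2,1,1)/√6`.) -/
def S_INQ : Prop := ∀ u : E3, u 0 ^ 2 + u 1 ^ 2 + u 2 ^ 2 = 1 →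
  (six (fun p q r => Real.sqrt (p ^ 2 + q ^ 2 + r ^ 2 - (p * u 0 + q * u 1 + r * u 2) ^ 2))) ^ 2 ≤
    14.95 * ∑ i : Fin 4, |y i u|

/-- LIM (assume VOL, CPT, SHK). Upper bound: `K + ball t ⊆ B (2 + √3 t) (4 + √3 t)`. Lower bound: the cube
`[-s/2, s/2]³`, `s = 2t/√3`, lies in the ball; `vol (K + Sg (s e_0) 0 1 + Sg (s e_1) 0 1 + Sg (s e_2) 0 1) ≥
vol K + ∑ G K (s e_i)` by `G_mono`, `G K (s e_i) ≥ 14 s` by SHK. -/
def S_LIM : Prop := Tendsto (fun t : ℝ =>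
    ((volume (B 2 4 + closedBall (0 : E3) t)).toReal - (volume (B 2 4)).toReal) / (2 * t))
  (𝓝[>] 0) (𝓝 (14 * Real.sqrt 3))

end Pool.Agent.K7.H39.IQ
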