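import Pool.Agent.K7.H39.IQ.Stm

/-!
# Project IQ, job TOP: the assembly
-/

set_option autoImplicit false

namespace Pool.Agent.K7.H39.IQ

open Metric Set MeasureTheory Filter Topology Pool.Agent.K7.H39.Cube
open scoped Pointwise

/-- Bessel's identity in an orthonormal frame of three-space -/
theorem frame_sq {u a b : E3} (h : Orthonormal ℝ ![u, a, b]) (p q r : ℝ) :
    (p * a 0 + q * a 1 + r * a 2) ^ 2 + (p * b 0 + q * b 1 + r * b 2) ^ 2 =
      p ^ 2 + q ^ 2 + r ^ 2 - (p * u 0 + q * u 1 + r * u 2) ^ 2 := by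
  have hcard : Fintype.card (Fin 3) = Module.finrank ℝ E3 := by simp
  set v : OrthonormalBasis (Fin 3) ℝ E3 :=
    OrthonormalBasis.mk h (by
      rw [← (basisOfOrthonormalOfCardEqFinrank h hcard).span_eq,
        coe_basisOfOrthonormalOfCardEqFinrank]) with hv
  have hvi : ∀ i, v i = ![u, a, b] i := fun i => by rw [hv, OrthonormalBasis.coe_mk]
  have h1 := v.sum_sq_inner_left !₂[p, q, r]
  rw [EuclideanSpace.norm_sq_eq, Fin.sum_univ_three, Fin.sum_univ_three, hvi, hvi, hvi] at h1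
  simp [PiLp.inner_apply, Fin.sum_univ_three] at h1
  nlinarith [h1]

theorem six_le {f g : ℝ → ℝ → ℝ → ℝ} (h : ∀ p q r, f p q r = g p q r) : six f = six g := by
  unfold six
  simp only [h]

theorem assemble (hV : S_VOL) (hC : S_CPT) (hK : S_SHK) (hP : S_PER) (hO : S_POS) (hI : S_INQ)
    (hL : S_LIM) :
    IsCompact (B 2 4) ∧ Convex ℝ (B 2 4) ∧ (interior (B 2 4)).Nonempty ∧
      ∃ S c : ℝ, 0 < S ∧
        Tendsto (fun t : ℝ => ((volume (B 2 4 + closedBall (0 : E3) t)).toReal
          - (volume (B 2 4)).toReal) / (2 * t)) (𝓝[>] 0) (𝓝 S) ∧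
        9 * Real.pi * (volume (B 2 4)).toReal ^ 2 / (2 * S ^ 3) < c ∧
        ∀ u a b : E3, Orthonormal ℝ ![u, a, b] → 0 < V1 (B 2 4) a b ∧
          c ≤ (Real.pi * ((volume (B 2 4 + segment ℝ 0 u)).toReal - (volume (B 2 4)).toReal) /
              V1 (B 2 4) a b ^ 2) ^ 3 := by
  obtain ⟨c1, c2, c3⟩ := hC 2 4 (by norm_num) (by norm_num)
  have hvol : (volume (B 2 4)).toReal = 20 := by
    have := hV 2 4 (by norm_num) (by norm_num) (by norm_num)
    unfold vol at this
    rw [this]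
    norm_num
  have hpi := Real.pi_gt_d2
  refine ⟨c1, c2, c3, 14 * Real.sqrt 3, (7 * Real.pi / 29.9) ^ 3, by positivity, hL, ?_,
    fun u a b hu => ?_⟩
  · rw [hvol]
    set s := Real.sqrt 3 with hs
    have hs2 : s ^ 2 = 3 := Real.sq_sqrt (by norm_num)
    have hs1 : 1.732 < s := by
      rw [hs]
      exact Real.lt_sqrt_of_sq_lt (by norm_num)
    have hspos : 0 < s := by linarith
    have hs3 : (14 * s) ^ 3 = 8232 * s := by
      calc (14 * s) ^ 3 = 2744 * s ^ 2 * s := by ring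
        _ = _ := by rw [hs2]; ring
    rw [hs3, div_lt_iff₀ (by positivity)]
    have hpi2 : 9.8596 < Real.pi ^ 2 := by nlinarith
    have h4 : 9.8596 * 1.732 < Real.pi ^ 2 * s := by nlinarith
    have h5 : 3600 < 343 / 26730.899 * 16464 * (Real.pi ^ 2 * s) := by
      norm_num at h4 ⊢
      linarith
    have h6 : Real.pi * 3600 < Real.pi * (343 / 26730.899 * 16464 * (Real.pi ^ 2 * s)) :=
      mul_lt_mul_of_pos_left h5 Real.pi_pos
    calc 9 * Real.pi * 20 ^ 2 = Real.pi * 3600 := by ring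
      _ < Real.pi * (343 / 26730.899 * 16464 * (Real.pi ^ 2 * s)) := h6
      _ = (7 * Real.pi / 29.9) ^ 3 * (2 * (8232 * s)) := by ring
  · have hnorm := hu.1
    have hua : ‖a‖ = 1 := hnorm 1
    have hub : ‖b‖ = 1 := hnorm 2
    have hu1 : ‖u‖ = 1 := hnorm 0
    have hab : inner ℝ a b = (0 : ℝ) := hu.2 (show (1 : Fin 3) ≠ 2 by decide)
    have hpos := hO a b hua hub hab
    refine ⟨hpos, ?_⟩
    have hle := (hP a b).2
    set g : ℝ := (volume (B 2 4 + segment ℝ 0 u)).toReal - (volume (B 2 4)).toReal with hg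
    have hg2 : 7 / 2 * ∑ i : Fin 4, |y i u| ≤ g := by
      have := hK u
      unfold G at this
      rw [Sg_zero_one] at this
      exact this
    have husq : u 0 ^ 2 + u 1 ^ 2 + u 2 ^ 2 = 1 := by
      have := EuclideanSpace.norm_sq_eq u
      rw [hu1, Fin.sum_univ_three] at this
      simp only [Real.norm_eq_abs, sq_abs] at this
      linarith
    have hin := hI u husq
    rw [six_le (fun p q r => by rw [frame_sq hu p q r])] at hle
    set V := V1 (B 2 4) a b with hVdef
    set A := ∑ i : Fin 4, |y i u| with hA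
    have h1 : V ^ 2 ≤ 14.95 * A := (pow_le_pow_left₀ hpos.le hle 2).trans hin
    have hV2 : 0 < V ^ 2 := by positivity
    have hρ : 7 * Real.pi / 29.9 ≤ Real.pi * g / V ^ 2 := by
      rw [le_div_iff₀ hV2]
      have h2 : Real.pi * (7 / 29.9 * V ^ 2) ≤ Real.pi * g := by
        refine mul_le_mul_of_nonneg_left ?_ Real.pi_pos.le
        norm_num at h1 ⊢
        linarith
      calc 7 * Real.pi / 29.9 * V ^ 2 = Real.pi * (7 / 29.9 * V ^ 2) := by ring
        _ ≤ _ := h2
    exact pow_le_pow_left₀ (by positivity) hρ 3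

end Pool.Agent.K7.H39.IQ
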