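import Pool.Agent.K7.H39.IQ.Stm

/-!
# Project IQ, job WID: the width of the truncated tetrahedron
-/

set_option autoImplicit false

namespace Pool.Agent.K7.H39.IQ

open Metric Set MeasureTheory Filter Topology Pool.Agent.K7.H39.Cube
open scoped Pointwise

theorem wid_core (w z : Fin 4 → ℝ) (h0 : ∑ i, z i = 0) (h1 : ∀ i, |z i| ≤ 6)
    (h2 : ∀ i j, i ≠ j → z i + z j ≤ 8) : ∑ i, w i * z i ≤ ∑ i, ∑ j, |w i - w j| := by
  set σ := Tuple.sort w with hσ
  have hm : Monotone (w ∘ σ) := Tuple.monotone_sort w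
  have e1 : ∑ i, w i * z i = ∑ i, w (σ i) * z (σ i) :=
    (Equiv.sum_comp σ (fun i => w i * z i)).symm
  have e2 : ∑ i, ∑ j, |w i - w j| = ∑ i, ∑ j, |w (σ i) - w (σ j)| := by
    rw [← Equiv.sum_comp σ (fun i => ∑ j, |w i - w j|)]
    refine Finset.sum_congr rfl fun i _ => ?_
    exact (Equiv.sum_comp σ (fun j => |w (σ i) - w j|)).symm
  have e3 : ∑ i, z (σ i) = 0 := by rw [Equiv.sum_comp σ z, h0]
  rw [e1, e2]
  have m1 : w (σ 0) ≤ w (σ 1) := hm (by decide)
  have m2 : w (σ 1) ≤ w (σ 2) := hm (by decide)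
  have m3 : w (σ 2) ≤ w (σ 3) := hm (by decide)
  have b3 := abs_le.1 (h1 (σ 3))
  have b0 := abs_le.1 (h1 (σ 0))
  have b23 := h2 (σ 2) (σ 3) (by simp)
  simp only [Fin.sum_univ_four] at e3 ⊢
  generalize w (σ 0) = a at *
  generalize w (σ 1) = b at *
  generalize w (σ 2) = c at *
  generalize w (σ 3) = d at *
  generalize z (σ 0) = p at *
  generalize z (σ 1) = q at *
  generalize z (σ 2) = r at *
  generalize z (σ 3) = s at *
  have f1 : |a - b| = b - a := by rw [abs_sub_comm, abs_of_nonneg (by linarith)]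
  have f2 : |a - c| = c - a := by rw [abs_sub_comm, abs_of_nonneg (by linarith)]
  have f3 : |a - d| = d - a := by rw [abs_sub_comm, abs_of_nonneg (by linarith)]
  have f4 : |b - c| = c - b := by rw [abs_sub_comm, abs_of_nonneg (by linarith)]
  have f5 : |b - d| = d - b := by rw [abs_sub_comm, abs_of_nonneg (by linarith)]
  have f6 : |c - d| = d - c := by rw [abs_sub_comm, abs_of_nonneg (by linarith)]
  rw [abs_sub_comm b a, abs_sub_comm c a, abs_sub_comm d a, abs_sub_comm c b, abs_sub_comm d b,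
    abs_sub_comm d c, f1, f2, f3, f4, f5, f6]
  simp only [sub_self, abs_zero]
  have g1 := mul_nonneg (sub_nonneg.2 m3) (show 0 ≤ 6 - s by linarith)
  have g2 := mul_nonneg (sub_nonneg.2 m2) (show 0 ≤ 8 - (r + s) by linarith)
  have g3 := mul_nonneg (sub_nonneg.2 m1) (show 0 ≤ 6 + p by linarith)
  have hq : q = -p - r - s := by linarith
  subst hq
  nlinarith [g1, g2, g3]

theorem t_wid : S_WID := by
  intro v x hx x' hx'
  have key := wid_core (fun i => y i v) (fun i => y i x - y i x')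
    (by simp [y, Fin.sum_univ_four]; ring)
    (fun i => by
      have h1 := hx i
      have h2 := hx' i
      rw [abs_le]
      constructor <;> linarith)
    (fun i j hij => by
      have h0 := hx 0
      have h1 := hx 1
      have h2 := hx 2
      have h3 := hx 3
      have g0 := hx' 0
      have g1 := hx' 1
      have g2 := hx' 2
      have g3 := hx' 3
      simp only [y, Matrix.cons_val_zero, Matrix.cons_val_one, Matrix.cons_val] at *
      fin_cases i <;> fin_cases j <;> simp at hij ⊢ <;> linarith)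
  have e1 : ∑ i, y i v * (y i x - y i x') = 4 * (inner ℝ v x - inner ℝ v x') := by
    simp [y, Fin.sum_univ_four, PiLp.inner_apply, Fin.sum_univ_three]
    ring
  have e2 : ∑ i : Fin 4, ∑ j : Fin 4, |y i v - y j v| =
      4 * six (fun p q r => |p * v 0 + q * v 1 + r * v 2|) := by
    have k : ∀ s : ℝ, |2 * s| = 2 * |s| := fun s => by rw [abs_mul]; norm_num
    simp only [y, Fin.sum_univ_four, six, Matrix.cons_val_zero, Matrix.cons_val_one,
      Matrix.cons_val, sub_self, abs_zero]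
    have a01 : |v 0 + v 1 + v 2 - (v 0 - v 1 - v 2)| = 2 * |v 1 + v 2| := by
      rw [← k]; congr 1; ring
    have a02 : |v 0 + v 1 + v 2 - (-v 0 + v 1 - v 2)| = 2 * |v 0 + v 2| := by
      rw [← k]; congr 1; ring
    have a03 : |v 0 + v 1 + v 2 - (-v 0 - v 1 + v 2)| = 2 * |v 0 + v 1| := by
      rw [← k]; congr 1; ring
    have a12 : |v 0 - v 1 - v 2 - (-v 0 + v 1 - v 2)| = 2 * |v 0 - v 1| := by
      rw [← k]; congr 1; ring
    have a13 : |v 0 - v 1 - v 2 - (-v 0 - v 1 + v 2)| = 2 * |v 0 - v 2| := by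
      rw [← k]; congr 1; ring
    have a23 : |-v 0 + v 1 - v 2 - (-v 0 - v 1 + v 2)| = 2 * |v 1 - v 2| := by
      rw [← k]; congr 1; ring
    rw [abs_sub_comm (v 0 - v 1 - v 2) (v 0 + v 1 + v 2),
      abs_sub_comm (-v 0 + v 1 - v 2) (v 0 + v 1 + v 2),
      abs_sub_comm (-v 0 - v 1 + v 2) (v 0 + v 1 + v 2),
      abs_sub_comm (-v 0 + v 1 - v 2) (v 0 - v 1 - v 2),
      abs_sub_comm (-v 0 - v 1 + v 2) (v 0 - v 1 - v 2),
      abs_sub_comm (-v 0 - v 1 + v 2) (-v 0 + v 1 - v 2), a01, a02, a03, a12, a13, a23]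
    ring_nf
  rw [e1, e2] at key
  linarith

end Pool.Agent.K7.H39.IQ
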